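import Pool.Agent.helper1.TW.SpecB

/-!
# RGB: one large variable in the multilinear estimate
-/

set_option autoImplicit false

open Complex MeasureTheory Set
open scoped ComplexConjugate

namespace Pool.Agent.TW

open Pool.Agent.ZT (VV gC Bn MC cmf cmA cmI lamA muA hm Sqf)

/-- splitting off one variable -/
theorem RGB_pi {s : ℕ} (i : Fin (s + 1)) (P : Fin (s + 1) → Finset ℕ) (F : ℕ → (Fin s → ℕ) → ℂ) :
    ∑ p ∈ Fintype.piFinset P, F (p i) (fun j => p (i.succAbove j)) =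
      ∑ p' ∈ Fintype.piFinset (fun j => P (i.succAbove j)), ∑ x ∈ P i, F x p' := by
  rw [← Finset.sum_product']
  refine Finset.sum_nbij' (fun p => (fun j => p (i.succAbove j), p i)) (fun z => i.insertNth z.2 z.1)
    ?_ ?_ ?_ ?_ ?_
  · intro p hp
    rw [Fintype.mem_piFinset] at hp
    exact Finset.mem_product.2 ⟨Fintype.mem_piFinset.2 fun j => hp _, hp i⟩
  · intro z hz
    obtain ⟨h1, h2⟩ := Finset.mem_product.1 hz
    rw [Fintype.mem_piFinset] at h1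
    rw [Fintype.mem_piFinset]
    intro j
    rcases Fin.eq_self_or_eq_succAbove i j with rfl | ⟨j', rfl⟩
    · rw [Fin.insertNth_apply_same]
      exact h2
    · rw [Fin.insertNth_apply_succAbove]
      exact h1 j'
  · intro p _
    funext j
    rcases Fin.eq_self_or_eq_succAbove i j with rfl | ⟨j', rfl⟩
    · rw [Fin.insertNth_apply_same]
    · rw [Fin.insertNth_apply_succAbove]
  · intro z _
    refine Prod.ext ?_ ?_
    · funext j
      exact Fin.insertNth_apply_succAbove (α := fun _ => ℕ) i z.2 z.1 j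
    · exact Fin.insertNth_apply_same (α := fun _ => ℕ) i z.2 z.1
  · intro p _
    rfl

/-- grouping the tuples of blocks -/
theorem RGB_sum {s : ℕ} (i : Fin (s + 1)) (𝓛 : Finset (Fin (s + 1) → ℕ)) (G : ℕ → (Fin s → ℕ) → ℂ) :
    ∑ l ∈ 𝓛, G (l i) (fun j => l (i.succAbove j)) =
      ∑ l' ∈ 𝓛.image (fun l j => l (i.succAbove j)),
        ∑ m ∈ (𝓛.filter (fun l => (fun j => l (i.succAbove j)) = l')).image (fun l => l i), G m l' := by
  classical
  have h0 : ∀ l ∈ 𝓛, (fun (l : Fin (s + 1) → ℕ) (j : Fin s) => l (i.succAbove j)) l ∈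
      𝓛.image (fun l j => l (i.succAbove j)) := fun l hl => Finset.mem_image_of_mem _ hl
  rw [← Finset.sum_fiberwise_of_maps_to h0]
  refine Finset.sum_congr rfl fun l' _ => ?_
  rw [Finset.sum_image]
  · refine Finset.sum_congr rfl fun l hl => ?_
    have h1 := (Finset.mem_filter.1 hl).2
    rw [h1]
  · intro l hl m hm h
    have h1 := (Finset.mem_filter.1 hl).2
    have h2 := (Finset.mem_filter.1 hm).2
    funext j
    rcases Fin.eq_self_or_eq_succAbove i j with rfl | ⟨j', rfl⟩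
    · exact h
    · exact congrFun (h1.trans h2.symm) j'

/-- the sum over blocks as a sum over windows -/
theorem RGB_blk {k : ℕ} (hW : ∀ N N' p : ℕ, p ∈ Win k N → p ∈ Win k N' → N = N')
    (hWb : ∀ N l : ℕ, N ∈ Wb k l ↔ bl k N = l) (Λ : Finset ℕ) (g : ℕ → ℂ) :
    ∑ m ∈ Λ, ∑ x ∈ Pb k m, g x = ∑ N ∈ Λ.biUnion (Wb k), ∑ x ∈ Win k N, g x := by
  classical
  rw [Finset.sum_biUnion]
  · refine Finset.sum_congr rfl fun m _ => ?_
    rw [Pb, Finset.sum_biUnion]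
    intro N _ N' _ hNN
    rw [Function.onFun, Finset.disjoint_left]
    intro x hx hx'
    exact hNN (hW N N' x hx hx')
  · intro m _ m' _ hmm
    rw [Function.onFun, Finset.disjoint_left]
    intro N hN hN'
    exact hmm (((hWb N m).1 hN).symm.trans ((hWb N m').1 hN'))

/-- the sum over all tuples of blocks -/
theorem RGB_tot {s k : ℕ} (hW : ∀ N N' p : ℕ, p ∈ Win k N → p ∈ Win k N' → N = N')
    (hPb : ∀ p l : ℕ, p ∈ Pb k l ↔ ∃ N : ℕ, bl k N = l ∧ p ∈ Win k N)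
    (w : Fin s → ℕ → ℝ) (hw0 : ∀ j p, 0 ≤ w j p) (hw : ∀ j, Summable (w j)) (𝓛 : Finset (Fin s → ℕ)) :
    ∑ l ∈ 𝓛, ∑ p ∈ Fintype.piFinset (fun j => Pb k (l j)), ∏ j, w j (p j) ≤ ∏ j, ∑' p, w j p := by
  classical
  have h1 : ∀ l ∈ 𝓛, ∑ p ∈ Fintype.piFinset (fun j => Pb k (l j)), ∏ j, w j (p j) =
      ∏ j, ∑ p ∈ Pb k (l j), w j p := by
    intro l _
    rw [Finset.prod_univ_sum]
  rw [Finset.sum_congr rfl h1]
  obtain ⟨Z, hZ⟩ : ∃ Z : ℕ, ∀ l ∈ 𝓛, ∀ j, l j < Z := by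
    refine ⟨𝓛.sup (fun l => Finset.univ.sup l) + 1, fun l hl j => Nat.lt_succ_of_le ?_⟩
    exact (Finset.le_sup (f := l) (Finset.mem_univ j)).trans
      (Finset.le_sup (f := fun l : Fin s → ℕ => Finset.univ.sup l) hl)
  have h2 : 𝓛 ⊆ Fintype.piFinset (fun _ : Fin s => Finset.range Z) := by
    intro l hl
    rw [Fintype.mem_piFinset]
    exact fun j => Finset.mem_range.2 (hZ l hl j)
  refine (Finset.sum_le_sum_of_subset_of_nonneg h2 fun l _ _ =>
    Finset.prod_nonneg fun j _ => Finset.sum_nonneg fun p _ => hw0 j p).trans ?_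
  rw [← Finset.prod_univ_sum (fun _ : Fin s => Finset.range Z) (fun j m => ∑ p ∈ Pb k m, w j p)]
  refine Finset.prod_le_prod (fun j _ => Finset.sum_nonneg fun m _ => Finset.sum_nonneg fun p _ => hw0 j p)
    fun j _ => ?_
  rw [← Finset.sum_biUnion]
  · exact (hw j).sum_le_tsum _ fun p _ => hw0 j p
  · intro m _ m' _ hmm
    rw [Function.onFun, Finset.disjoint_left]
    intro p hp hp'
    obtain ⟨N, hN, hpN⟩ := (hPb p m).1 hp
    obtain ⟨N', hN', hpN'⟩ := (hPb p m').1 hp'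
    have h3 := hW N N' p hpN hpN'
    rw [h3] at hN
    exact hmm (hN.symm.trans hN')

/-- the size of the other variables -/
theorem RGB_size {s : ℕ} (d m M : ℕ) (L : ℝ) (l p : Fin s → ℕ) (hd : 1 ≤ d) (hL : 196 ≤ L)
    (h : d * 2 ^ (∑ j, l j) ≤ 2 ^ (49 * m)) (hl : ∀ j, L / 2 ≤ (l j : ℝ)) (hp : ∀ j, p j < 2 ^ (l j + 2))
    (hM : 2 ^ m ≤ M) : d * ∏ j, p j ≤ M ^ 50 := by
  have h1 : 2 ^ (∑ j, l j) ≤ 2 ^ (49 * m) := (Nat.le_mul_of_pos_left _ hd).trans h
  have h2 : ∑ j, l j ≤ 49 * m := (Nat.pow_le_pow_iff_right (by norm_num)).1 h1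
  have h3 : (s : ℝ) * 98 ≤ 49 * m := by
    have h4 : ∑ j : Fin s, (98 : ℝ) ≤ ∑ j, (l j : ℝ) := Finset.sum_le_sum fun j _ => by
      have := hl j
      linarith
    rw [Finset.sum_const, Finset.card_univ, Fintype.card_fin, nsmul_eq_mul] at h4
    have h5 : ((∑ j, l j : ℕ) : ℝ) ≤ ((49 * m : ℕ) : ℝ) := by exact_mod_cast h2
    push_cast at h5
    exact h4.trans h5
  have h4 : 2 * s ≤ m := by
    have h5 : s * 98 ≤ 49 * m := by exact_mod_cast h3
    omega
  have h5 : ∏ j, p j ≤ 2 ^ (∑ j, l j) * 2 ^ (2 * s) := by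
    calc ∏ j, p j ≤ ∏ j, 2 ^ (l j + 2) := Finset.prod_le_prod' fun j _ => (hp j).le
      _ = 2 ^ (∑ j, l j) * 2 ^ (2 * s) := by
        rw [Finset.prod_pow_eq_pow_sum, Finset.sum_add_distrib, pow_add, Finset.sum_const,
          Finset.card_univ, Fintype.card_fin, smul_eq_mul, mul_comm s 2]
  calc d * ∏ j, p j ≤ d * (2 ^ (∑ j, l j) * 2 ^ (2 * s)) := Nat.mul_le_mul_left d h5
    _ = (d * 2 ^ (∑ j, l j)) * 2 ^ (2 * s) := by ring
    _ ≤ 2 ^ (49 * m) * 2 ^ m := Nat.mul_le_mul h (Nat.pow_le_pow_right (by norm_num) h4)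
    _ = (2 ^ m) ^ 50 := by rw [← pow_add, ← pow_mul]; ring_nf
    _ ≤ M ^ 50 := Nat.pow_le_pow_left hM 50

theorem RGB (hBLA : BLA_stmt) (hWBK : WBK_stmt) (hBEF : BEF_stmt) (hBNF : BNF_stmt) (hSUP : SUP_stmt) :
    RGB_stmt := by
  classical
  intro k n N₀ c CG om μs a b hctr hk hn
  obtain ⟨x₀, hx0, hx01, hB⟩ := hBLA k n N₀ c CG om μs a b hctr hk hn
  refine ⟨x₀, hx0, hx01, fun x₁ hx₁ hx₁₀ R₀ hR₀ => ?_⟩
  have hx₁1 : x₁ ≤ 1 := hx₁₀.trans hx01
  obtain ⟨C, hC, qB, hqB, hB2⟩ := hB x₁ hx₁ hx₁₀ R₀ hR₀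
  obtain ⟨C', qE, hC', hqE, -, hE⟩ := hBEF k n N₀ c CG om x₁ hk hx₁ hx₁1
  obtain ⟨hW, hWb, hPb, hlog, ⟨N₁, hN₁⟩, hW6⟩ := hWBK k (by omega)
  obtain ⟨CW, qW, _, hqW, hW7⟩ := hW6 n x₁ hx₁ hx₁1
  refine ⟨max 1 (max C C'), le_max_left _ _,
    max (max qB qE) (max qW (max (Real.exp 196) ((((N₁ : ℝ) ^ k + 1) / x₁) ^ 2))),
    hqB.trans ((le_max_left _ _).trans (le_max_left _ _)), ?_⟩
  intro ι D hDa hDb hD q hq s d u ρ hu v i 𝓛 hd h𝓛
  have hqqB : qB ≤ q := ((le_max_left _ _).trans (le_max_left _ _)).trans hq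
  have hqqE : qE ≤ q := ((le_max_right _ _).trans (le_max_left _ _)).trans hq
  have hqqW : qW ≤ q := ((le_max_left _ _).trans (le_max_right _ _)).trans hq
  have hq196 : Real.exp 196 ≤ q := (((le_max_left _ _).trans (le_max_right _ _)).trans (le_max_right _ _)).trans hq
  have hqN : (((N₁ : ℝ) ^ k + 1) / x₁) ^ 2 ≤ q :=
    (((le_max_right _ _).trans (le_max_right _ _)).trans (le_max_right _ _)).trans hq
  have hq3 : 3 ≤ q := hqB.trans hqqB
  have hq0 : 0 < q := by linarith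
  have hL : 196 ≤ Real.log q := (Real.le_log_iff_exp_le hq0).2 hq196
  have hL0 : 0 < Real.log q := by linarith
  have hbig : (N₁ : ℝ) ^ k + 1 ≤ x₁ * √q := by
    have h1 : ((N₁ : ℝ) ^ k + 1) / x₁ ≤ √q := Real.le_sqrt_of_sq_le hqN
    rw [div_le_iff₀ hx₁] at h1
    linarith [mul_comm (√q) x₁]
  have hxq : 0 < x₁ * √q := mul_pos hx₁ (Real.sqrt_pos.2 hq0)
  obtain ⟨s', rfl⟩ : ∃ s', s = s' + 1 := ⟨s - 1, by have := i.pos; omega⟩
  have hn1 : 1 ≤ n := by omega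
  have hN0 : 0 ≤ D.N x₁ q v :=
    (hSUP n ι D hn1 hD.ctr hD.fam.r1 hD.om hD.fam.bd hD.pos v).2.2.2.2.2.2.2.1 x₁ q hx₁ hq3
  obtain ⟨β, hβ⟩ : ∃ β : Fin (s' + 1) → ℕ → ℂ, ∀ j p, β j p = D.be om R₀ x₁ q k (u j) p := ⟨_, fun _ _ => rfl⟩
  have hβz : ∀ j p, β j p ≠ 0 → p.Prime ∧ ∃ N : ℕ, p ∈ Win k N ∧ x₁ * √q ≤ (N : ℝ) ^ k := by
    intro j p h
    rw [hβ] at h
    have h1 := (hE ι D hD.fam q R₀ (ρ j) (u j) hqqE hR₀ (hu j)).2.2.1 p h
    exact ⟨h1.1, h1.2.2⟩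
  have hβs : ∀ j, Summable (fun p : ℕ => ‖β j p‖ / p) ∧ ∑' p : ℕ, ‖β j p‖ / p ≤ C' * ρ j * Real.log q := by
    intro j
    have h1 := (hE ι D hD.fam q R₀ (ρ j) (u j) hqqE hR₀ (hu j)).2.2.2
    have h2 : (fun p : ℕ => ‖β j p‖ / p) = fun p : ℕ => ‖D.be om R₀ x₁ q k (u j) p‖ / p := by
      funext p
      rw [hβ]
    rw [h2]
    exact h1
  have hρ0 : ∀ j, 0 ≤ ρ j := fun j => (hu j).1
  -- large windows
  have hlarge : ∀ N : ℕ, x₁ * √q ≤ (N : ℝ) ^ k → N₁ ≤ N ∧ 1 ≤ N := by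
    intro N h
    have h1 : (N₁ : ℝ) ^ k < (N : ℝ) ^ k := by linarith
    have h2 : (N₁ : ℝ) < N := lt_of_pow_lt_pow_left₀ k (by positivity) h1
    have h3 : N₁ < N := by exact_mod_cast h2
    omega
  -- the other variables
  have hoth : ∀ j (p l : ℕ), p ∈ Pb k l → β j p ≠ 0 → 1 ≤ p ∧ p < 2 ^ (l + 2) ∧ Real.log q / 2 ≤ (l : ℝ) := by
    intro j p l hp hb
    obtain ⟨N, hN, hpN⟩ := (hPb p l).1 hp
    obtain ⟨hpp, N', hpN', hN'⟩ := hβz j p hb
    have h1 := hW N N' p hpN hpN'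
    rw [← h1] at hN'
    have h2 := hlarge N hN'
    have h3 := (hN₁ N p h2.1 hpN).2.2
    have h4 := (hW7 q N hqqW hN').1
    rw [hN] at h3 h4
    exact ⟨hpp.one_lt.le, h3, h4⟩
  -- rewriting the sum
  have hMB : ∀ l : Fin (s' + 1) → ℕ, D.MB q k (fun j => D.be om R₀ x₁ q k (u j)) v d l =
      ∑ p' ∈ Fintype.piFinset (fun j => Pb k (l (i.succAbove j))), ∑ x ∈ Pb k (l i),
        (β i x * ∏ j, β (i.succAbove j) (p' j)) * D.T q v (d * (x * ∏ j, p' j)) := by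
    intro l
    rw [← RGB_pi i (fun j => Pb k (l j)) (fun x p' =>
      (β i x * ∏ j, β (i.succAbove j) (p' j)) * D.T q v (d * (x * ∏ j, p' j)))]
    rw [Dat.MB]
    refine Finset.sum_congr rfl fun p _ => ?_
    rw [Fin.prod_univ_succAbove _ i, Fin.prod_univ_succAbove _ i]
    simp only [hβ]
  have htot : ∑ l ∈ 𝓛, D.MB q k (fun j => D.be om R₀ x₁ q k (u j)) v d l =
      ∑ l' ∈ 𝓛.image (fun l j => l (i.succAbove j)), ∑ p' ∈ Fintype.piFinset (fun j => Pb k (l' j)),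
        (∏ j, β (i.succAbove j) (p' j)) *
          ∑ m ∈ (𝓛.filter (fun l => (fun j => l (i.succAbove j)) = l')).image (fun l => l i),
            ∑ x ∈ Pb k m, β i x * D.T q v (x * (d * ∏ j, p' j)) := by
    rw [Finset.sum_congr rfl fun l _ => hMB l]
    rw [RGB_sum i 𝓛 (fun m l' => ∑ p' ∈ Fintype.piFinset (fun j => Pb k (l' j)), ∑ x ∈ Pb k m,
        (β i x * ∏ j, β (i.succAbove j) (p' j)) * D.T q v (d * (x * ∏ j, p' j)))]
    refine Finset.sum_congr rfl fun l' _ => ?_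
    rw [Finset.sum_comm]
    refine Finset.sum_congr rfl fun p' _ => ?_
    rw [Finset.mul_sum]
    refine Finset.sum_congr rfl fun m _ => ?_
    rw [Finset.mul_sum]
    refine Finset.sum_congr rfl fun x _ => ?_
    have h1 : d * (x * ∏ j, p' j) = x * (d * ∏ j, p' j) := by ring
    rw [h1]
    ring
  -- the inner sum
  have hin : ∀ l' ∈ 𝓛.image (fun (l : Fin (s' + 1) → ℕ) j => l (i.succAbove j)),
      ∀ p' ∈ Fintype.piFinset (fun j => Pb k (l' j)),
      ‖(∏ j, β (i.succAbove j) (p' j)) *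
          ∑ m ∈ (𝓛.filter (fun l => (fun j => l (i.succAbove j)) = l')).image (fun l => l i),
            ∑ x ∈ Pb k m, β i x * D.T q v (x * (d * ∏ j, p' j))‖ ≤
        (∏ j, ‖β (i.succAbove j) (p' j)‖ / (p' j : ℝ)) * (C * ρ i * D.N x₁ q v / d) := by
    intro l' _ p' hp'
    rw [Fintype.mem_piFinset] at hp'
    have hrhs : 0 ≤ C * ρ i * D.N x₁ q v / d := by
      have := hρ0 i
      positivity
    by_cases hz : ∃ j, β (i.succAbove j) (p' j) = 0
    · obtain ⟨j, hj⟩ := hz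
      rw [Finset.prod_eq_zero (Finset.mem_univ j) hj, zero_mul, norm_zero]
      exact mul_nonneg (Finset.prod_nonneg fun _ _ => by positivity) hrhs
    push Not at hz
    have hp1 : ∀ j, 1 ≤ p' j ∧ p' j < 2 ^ (l' j + 2) ∧ Real.log q / 2 ≤ (l' j : ℝ) :=
      fun j => hoth (i.succAbove j) (p' j) (l' j) (hp' j) (hz j)
    have hpr : 1 ≤ ∏ j, p' j := Finset.one_le_prod' fun j _ => (hp1 j).1
    have hd' : 1 ≤ d * ∏ j, p' j := Nat.mul_pos hd hpr
    rw [RGB_blk hW hWb _ (fun x => β i x * D.T q v (x * (d * ∏ j, p' j)))]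
    obtain ⟨U, hU⟩ : ∃ U : Finset ℕ, U =
      ((𝓛.filter (fun l => (fun j => l (i.succAbove j)) = l')).image (fun l => l i)).biUnion (Wb k) := ⟨_, rfl⟩
    rw [← hU]
    have hfil : ∑ N ∈ U.filter (fun N : ℕ => ((d * ∏ j, p' j : ℕ) : ℝ) ≤ ((N : ℝ) ^ k) ^ 50),
        ∑ x ∈ Win k N, β i x * D.T q v (x * (d * ∏ j, p' j)) =
        ∑ N ∈ U, ∑ x ∈ Win k N, β i x * D.T q v (x * (d * ∏ j, p' j)) := by
      refine Finset.sum_filter_of_ne fun N hN hne => ?_
      obtain ⟨x, hx, hxne⟩ := Finset.exists_ne_zero_of_sum_ne_zero hne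
      have hbx : β i x ≠ 0 := left_ne_zero_of_mul hxne
      obtain ⟨-, N', hxN', hN'⟩ := hβz i x hbx
      have h1 := hW N N' x hx hxN'
      rw [← h1] at hN'
      rw [hU, Finset.mem_biUnion] at hN
      obtain ⟨m, hm, hNm⟩ := hN
      rw [Finset.mem_image] at hm
      obtain ⟨l, hl, rfl⟩ := hm
      obtain ⟨hl1, hl2⟩ := Finset.mem_filter.1 hl
      have h2 := h𝓛 l hl1
      have h3 : ∑ j ∈ Finset.univ.erase i, l j = ∑ j, l' j := by
        have h4 := Finset.add_sum_erase Finset.univ l (Finset.mem_univ i)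
        rw [Fin.sum_univ_succAbove _ i] at h4
        have h5 := Nat.add_left_cancel h4
        rw [h5, ← hl2]
      rw [h3] at h2
      have h4 := (hlog N (hlarge N hN').2).1
      rw [(hWb N (l i)).1 hNm] at h4
      have h5 := RGB_size d (l i) (N ^ k) (Real.log q) l' p' hd hL h2 (fun j => (hp1 j).2.2)
        (fun j => (hp1 j).2.1) h4
      have h6 : ((d * ∏ j, p' j : ℕ) : ℝ) ≤ (((N ^ k) ^ 50 : ℕ) : ℝ) := by exact_mod_cast h5
      rw [Nat.cast_pow, Nat.cast_pow] at h6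
      exact h6
    rw [← hfil, norm_mul, norm_prod]
    have h7 := hB2 ι D hDa hDb hD q hqqB (u i) (ρ i) (hu i) v (d * ∏ j, p' j)
      (U.filter (fun N : ℕ => ((d * ∏ j, p' j : ℕ) : ℝ) ≤ ((N : ℝ) ^ k) ^ 50)) hd'
      (fun N hN => (Finset.mem_filter.1 hN).2)
    simp only [← hβ] at h7
    refine (mul_le_mul_of_nonneg_left h7 (Finset.prod_nonneg fun _ _ => norm_nonneg _)).trans (le_of_eq ?_)
    rw [Finset.prod_div_distrib]
    push_cast
    have h8 : (∏ j, (p' j : ℝ)) ≠ 0 := Finset.prod_ne_zero_iff.2 fun j _ => by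
      have := (hp1 j).1
      positivity
    have h9 : (d : ℝ) ≠ 0 := by positivity
    field_simp
  -- conclusion
  rw [htot]
  have hfin : ‖∑ l' ∈ 𝓛.image (fun l j => l (i.succAbove j)), ∑ p' ∈ Fintype.piFinset (fun j => Pb k (l' j)),
        (∏ j, β (i.succAbove j) (p' j)) *
          ∑ m ∈ (𝓛.filter (fun l => (fun j => l (i.succAbove j)) = l')).image (fun l => l i),
            ∑ x ∈ Pb k m, β i x * D.T q v (x * (d * ∏ j, p' j))‖ ≤
      (∏ j : Fin s', (C' * ρ (i.succAbove j) * Real.log q)) * (C * ρ i * D.N x₁ q v / d) := by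
    have hrhs : 0 ≤ C * ρ i * D.N x₁ q v / d := by
      have := hρ0 i
      positivity
    refine (norm_sum_le _ _).trans ?_
    have h1 : ∀ l' ∈ 𝓛.image (fun (l : Fin (s' + 1) → ℕ) j => l (i.succAbove j)),
        ‖∑ p' ∈ Fintype.piFinset (fun j => Pb k (l' j)), (∏ j, β (i.succAbove j) (p' j)) *
          ∑ m ∈ (𝓛.filter (fun l => (fun j => l (i.succAbove j)) = l')).image (fun l => l i),
            ∑ x ∈ Pb k m, β i x * D.T q v (x * (d * ∏ j, p' j))‖ ≤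
        (∑ p' ∈ Fintype.piFinset (fun j => Pb k (l' j)), ∏ j, ‖β (i.succAbove j) (p' j)‖ / (p' j : ℝ)) *
          (C * ρ i * D.N x₁ q v / d) := by
      intro l' hl'
      rw [Finset.sum_mul]
      exact (norm_sum_le _ _).trans (Finset.sum_le_sum fun p' hp' => hin l' hl' p' hp')
    refine (Finset.sum_le_sum h1).trans ?_
    rw [← Finset.sum_mul]
    refine mul_le_mul_of_nonneg_right ?_ hrhs
    refine (RGB_tot hW hPb (fun j p => ‖β (i.succAbove j) p‖ / (p : ℝ)) (fun _ _ => by positivity)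
      (fun j => (hβs (i.succAbove j)).1) _).trans ?_
    exact Finset.prod_le_prod (fun j _ => tsum_nonneg fun p => by positivity) fun j _ => (hβs (i.succAbove j)).2
  refine hfin.trans ?_
  obtain ⟨K, hK⟩ : ∃ K : ℝ, K = max 1 (max C C') := ⟨_, rfl⟩
  rw [← hK]
  have hKC : C ≤ K := by
    rw [hK]
    exact (le_max_left _ _).trans (le_max_right _ _)
  have hKC' : C' ≤ K := by
    rw [hK]
    exact (le_max_right _ _).trans (le_max_right _ _)
  have hK0 : 0 < K := hC.trans_le hKC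
  rw [Fin.prod_univ_succAbove ρ i]
  have h1 : ∏ j : Fin s', (C' * ρ (i.succAbove j) * Real.log q) ≤
      (∏ j : Fin s', ρ (i.succAbove j)) * (K * Real.log q) ^ s' := by
    have h2 : ∏ j : Fin s', (C' * ρ (i.succAbove j) * Real.log q) ≤
        ∏ j : Fin s', (ρ (i.succAbove j) * (K * Real.log q)) := by
      refine Finset.prod_le_prod (fun j _ => ?_) fun j _ => ?_
      · have := hρ0 (i.succAbove j)
        positivity
      · have h3 := mul_le_mul_of_nonneg_left hKC' (mul_nonneg (hρ0 (i.succAbove j)) hL0.le)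
        calc C' * ρ (i.succAbove j) * Real.log q = ρ (i.succAbove j) * Real.log q * C' := by ring
          _ ≤ ρ (i.succAbove j) * Real.log q * K := h3
          _ = ρ (i.succAbove j) * (K * Real.log q) := by ring
    refine h2.trans (le_of_eq ?_)
    rw [Finset.prod_mul_distrib, Finset.prod_const, Finset.card_univ, Fintype.card_fin]
  have hP0 : 0 ≤ ∏ j : Fin s', ρ (i.succAbove j) := Finset.prod_nonneg fun j _ => hρ0 _
  have h2 : C * ρ i * D.N x₁ q v / d ≤ K * ρ i * D.N x₁ q v / d := by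
    have := hρ0 i
    gcongr
  have h3 : 0 ≤ C * ρ i * D.N x₁ q v / d := by
    have := hρ0 i
    positivity
  calc (∏ j : Fin s', (C' * ρ (i.succAbove j) * Real.log q)) * (C * ρ i * D.N x₁ q v / d)
      ≤ ((∏ j : Fin s', ρ (i.succAbove j)) * (K * Real.log q) ^ s') * (K * ρ i * D.N x₁ q v / d) :=
        mul_le_mul h1 h2 h3 (by positivity)
    _ = ρ i * (∏ j : Fin s', ρ (i.succAbove j)) * (K * Real.log q) ^ (s' + 1) / Real.log q / d * D.N x₁ q v := by
        rw [pow_succ]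
        field_simp

end Pool.Agent.TW
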